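import Pool.Agent.Helper60.DiagSemigroup

set_option autoImplicit false

open Filter Topology

namespace Pool.Agent.Helper50.SLO

open Pool.Agent.Helper60.SlowOrbit

theorem exp_half_lt : Real.exp (1 / 2) < 2 := by
  have h1 : Real.exp (1 / 2) ^ 2 = Real.exp 1 := by
    rw [← Real.exp_nat_mul]
    norm_num
  have h2 := Real.exp_one_lt_d9
  have h3 := Real.exp_pos (1 / 2)
  nlinarith

/-- Every function `∑ c_k exp((-1/(k+1) + 2π i R_k) t)` with absolutely summable coefficients is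
smaller than `exp(-√t/2)` at arbitrarily late times `t`. -/
theorem exists_small_late (c : ℕ → ℂ) (hc : Summable fun k => ‖c k‖) (τ : ℝ) :
    ∃ t : ℝ, 0 ≤ t ∧ τ ≤ t ∧ ‖∑' k, c k * mult t k‖ < Real.exp (-(Real.sqrt t / 2)) := by
  by_contra hcon
  push Not at hcon
  set C := ∑' k, ‖c k‖ with hC
  have hC0 : 0 ≤ C := tsum_nonneg fun k => norm_nonneg _
  -- for all large `N` the bound of `small_of_no_dominating` beats the rate
  have hlim : Tendsto (fun N : ℕ => C * (8 * (1 / 2) ^ N) * Real.exp (((N : ℝ) + 2) / 2)) atTop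
      (𝓝 0) := by
    have h1 : Tendsto (fun N : ℕ => (1 / 2 * Real.exp (1 / 2)) ^ N) atTop (𝓝 0) :=
      tendsto_pow_atTop_nhds_zero_of_lt_one (by positivity) (by linarith [exp_half_lt])
    have h2 : Tendsto (fun N : ℕ => 8 * C * Real.exp 1 * (1 / 2 * Real.exp (1 / 2)) ^ N) atTop
        (𝓝 (8 * C * Real.exp 1 * 0)) := h1.const_mul _
    rw [mul_zero] at h2
    refine h2.congr fun N => ?_
    have h3 : Real.exp (((N : ℝ) + 2) / 2) = Real.exp 1 * Real.exp (1 / 2) ^ N := by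
      rw [← Real.exp_nat_mul, ← Real.exp_add]
      congr 1
      ring
    rw [h3, mul_pow]
    ring
  obtain ⟨N₁, hN₁⟩ := (hlim.eventually (gt_mem_nhds one_pos)).exists_forall_of_atTop
  set N₀ := max (max N₁ 1) ⌈Real.sqrt τ⌉₊ with hN₀
  have hτ : τ ≤ (N₀ : ℝ) ^ 2 := by
    rcases le_total τ 0 with h | h
    · exact h.trans (by positivity)
    · have h1 : Real.sqrt τ ≤ N₀ :=
        (Nat.le_ceil _).trans (by exact_mod_cast le_max_right _ _)
      calc τ = Real.sqrt τ ^ 2 := (Real.sq_sqrt h).symm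
        _ ≤ (N₀ : ℝ) ^ 2 := pow_le_pow_left₀ (Real.sqrt_nonneg _) h1 2
  have hN₀1 : N₁ ≤ N₀ := (le_max_left _ _).trans (le_max_left _ _)
  have hN₀2 : 1 ≤ N₀ := (le_max_right _ _).trans (le_max_left _ _)
  -- at all times `T ≥ N₀^2` some index dominates
  have hdom : ∀ T : ℝ, (N₀ : ℝ) ^ 2 ≤ T →
      ∃ n : ℕ, S c T < 2 * (‖c n‖ * Real.exp (-(T / ((n : ℝ) + 1)))) := by
    intro T hT
    by_contra hno
    push Not at hno
    have hT0 : 0 ≤ T := le_trans (by positivity) hT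
    set N := ⌊Real.sqrt T⌋₊ with hN
    have hN1 : N₀ ≤ N := Nat.le_floor (Real.le_sqrt_of_sq_le hT)
    have hN2 : (N : ℝ) ≤ Real.sqrt T := Nat.floor_le (Real.sqrt_nonneg T)
    have hN3 : Real.sqrt T < N + 1 := Nat.lt_floor_add_one _
    have hN4 : (N : ℝ) ^ 2 ≤ T := by
      calc (N : ℝ) ^ 2 ≤ (Real.sqrt T) ^ 2 := pow_le_pow_left₀ (by positivity) hN2 2
        _ = T := Real.sq_sqrt hT0
    have hN5 : T ≤ ((N : ℝ) + 1) ^ 2 := by
      calc T = (Real.sqrt T) ^ 2 := (Real.sq_sqrt hT0).symm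
        _ ≤ ((N : ℝ) + 1) ^ 2 := pow_le_pow_left₀ (Real.sqrt_nonneg T) hN3.le 2
    have hNge1 : 1 ≤ N := hN₀2.trans hN1
    obtain ⟨t, ht1, ht2, ht3⟩ := small_of_no_dominating hc N hNge1 hN4 hno
    have h1 := hcon t (hT0.trans ht1) (hτ.trans (hT.trans ht1))
    have hsq : Real.sqrt t ≤ (N : ℝ) + 2 := by
      apply Real.sqrt_le_iff.2
      refine ⟨by positivity, ?_⟩
      have : (1 : ℝ) ≤ N := by exact_mod_cast hNge1
      nlinarith
    have h2 : Real.exp (-(((N : ℝ) + 2) / 2)) ≤ Real.exp (-(Real.sqrt t / 2)) := by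
      rw [Real.exp_le_exp]
      linarith
    have h3 := hN₁ N (hN₀1.trans hN1)
    have h4 : Real.exp (-(((N : ℝ) + 2) / 2)) ≤ C * (8 * (1 / 2) ^ N) := h2.trans (h1.trans ht3)
    have h5 : Real.exp (-(((N : ℝ) + 2) / 2)) * Real.exp (((N : ℝ) + 2) / 2) = 1 := by
      rw [← Real.exp_add, neg_add_cancel, Real.exp_zero]
    have h6 := mul_le_mul_of_nonneg_right h4 (Real.exp_pos (((N : ℝ) + 2) / 2)).le
    linarith
  -- the dominating index at time `N₀^2`
  set T₀ : ℝ := (N₀ : ℝ) ^ 2 with hT₀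
  have hT₀0 : 0 ≤ T₀ := by positivity
  obtain ⟨n, hn⟩ := hdom T₀ le_rfl
  -- it stops dominating
  have hstop : ∃ T₁ : ℝ, T₀ ≤ T₁ ∧ 2 * (‖c n‖ * Real.exp (-(T₁ / ((n : ℝ) + 1)))) ≤ S c T₁ := by
    by_contra hno
    push Not at hno
    have hlim2 : Tendsto (fun M : ℝ => 2 * ‖c n‖ * Real.exp (-(M / 2))) atTop (𝓝 0) := by
      have e1 : Tendsto (fun M : ℝ => Real.exp (-(M / 2))) atTop (𝓝 0) := by
        refine Real.tendsto_exp_atBot.comp ?_
        exact tendsto_neg_atTop_atBot.comp (tendsto_id.atTop_div_const (by norm_num))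
      have e2 := e1.const_mul (2 * ‖c n‖)
      rwa [mul_zero] at e2
    obtain ⟨M, hM1, hM2⟩ := ((hlim2.eventually (gt_mem_nhds one_pos)).and
      (eventually_ge_atTop (max (N₀ : ℝ) ((n : ℝ) + 1)))).exists
    have hMN : (N₀ : ℝ) ≤ M := (le_max_left _ _).trans hM2
    have hMn : (n : ℝ) + 1 ≤ M := (le_max_right _ _).trans hM2
    have hM0 : 0 ≤ M := le_trans (by positivity) hMN
    have hM3 : T₀ ≤ M ^ 2 := by
      rw [hT₀]
      exact pow_le_pow_left₀ (by positivity) hMN 2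
    have h10 := hno (M ^ 2) hM3
    have h11 := hcon (M ^ 2) (by positivity) (hτ.trans hM3)
    have h12 := norm_orbit_le hc (T := M ^ 2) (by positivity)
    rw [Real.sqrt_sq hM0] at h11
    have h7 : Real.exp (-(M ^ 2 / ((n : ℝ) + 1))) ≤ Real.exp (-M) := by
      rw [Real.exp_le_exp, neg_le_neg_iff, le_div_iff₀ (by positivity)]
      nlinarith
    have h8 : Real.exp (-(M / 2)) * Real.exp (-(M / 2)) = Real.exp (-M) := by
      rw [← Real.exp_add]
      congr 1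
      ring
    have h9 : ‖c n‖ * Real.exp (-(M ^ 2 / ((n : ℝ) + 1))) ≤ ‖c n‖ * Real.exp (-M) :=
      mul_le_mul_of_nonneg_left h7 (norm_nonneg _)
    have h13 : Real.exp (-(M / 2)) < 2 * ‖c n‖ * Real.exp (-(M / 2)) * Real.exp (-(M / 2)) := by
      rw [mul_assoc, h8]
      linarith
    have h14 := Real.exp_pos (-(M / 2))
    nlinarith
  obtain ⟨T₁, hT₁, hT₁'⟩ := hstop
  -- intermediate value theorem
  have hcont : ContinuousOn (fun T : ℝ => 2 * (‖c n‖ * Real.exp (-(T / ((n : ℝ) + 1)))) - S c T)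
      (Set.Icc T₀ T₁) := by
    refine ContinuousOn.sub (Continuous.continuousOn (by fun_prop)) ?_
    exact (continuousOn_S hc).mono fun T hT => le_trans hT₀0 hT.1
  have hivt := intermediate_value_Icc' hT₁ hcont
  obtain ⟨Ts, hTs1, hTs2⟩ := hivt ⟨show 2 * (‖c n‖ * Real.exp (-(T₁ / ((n : ℝ) + 1)))) - S c T₁ ≤ 0
    by linarith, show 0 ≤ 2 * (‖c n‖ * Real.exp (-(T₀ / ((n : ℝ) + 1)))) - S c T₀ by linarith⟩
  simp only at hTs2
  obtain ⟨n', hn'⟩ := hdom Ts hTs1.1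
  have hne : n ≠ n' := by
    rintro rfl
    linarith
  have hTs0 : 0 ≤ Ts := hT₀0.trans hTs1.1
  have hle : ∑ k ∈ ({n, n'} : Finset ℕ), ‖c k‖ * Real.exp (-(Ts / ((k : ℝ) + 1))) ≤ S c Ts :=
    (summable_S hc hTs0).sum_le_tsum _ fun k _ => by positivity
  rw [Finset.sum_pair hne] at hle
  linarith

end Pool.Agent.Helper50.SLO
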