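import Pool.Agent.Helper50.SLO.Late

set_option autoImplicit false

open Filter Topology NNReal
open scoped ENNReal

namespace Pool.Agent.Helper50.SLO

open Pool.Agent.Helper60.SlowOrbit

theorem mult_eq (t : ℝ≥0) (k : ℕ) : mult (t : ℝ) k =
    Complex.exp ((-(1 / ((k : ℂ) + 1)) + 2 * (Real.pi : ℂ) * 2 ^ (k * (k + 1)) * Complex.I) *
          (((t : ℝ) : ℂ))) := by
  unfold mult R
  rw [Complex.ofReal_exp, ← Complex.exp_add]
  congr 1
  push_cast
  ring

theorem norm_T_le_one (t : ℝ≥0) : ‖T t‖ ≤ 1 :=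
  ContinuousLinearMap.opNorm_le_bound _ zero_le_one fun x => by
    rw [one_mul]; exact norm_T_le t x

theorem adjoint_apply (t : ℝ≥0) (x : H) (k : ℕ) :
    (ContinuousLinearMap.adjoint (T t) x) k = star (mult (t : ℝ) k) * x k := by
  have h1 : inner ℂ (lp.single 2 k (1 : ℂ) : H) (ContinuousLinearMap.adjoint (T t) x) =
      (ContinuousLinearMap.adjoint (T t) x) k := by
    rw [lp.inner_single_left]
    simp
  rw [← h1, ContinuousLinearMap.adjoint_inner_right, T_single, lp.inner_single_left, mul_one]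
  simp [mul_comm]

theorem normal (t : ℝ≥0) : IsStarNormal (T t) := by
  refine ⟨?_⟩
  rw [ContinuousLinearMap.star_eq_adjoint]
  show ContinuousLinearMap.adjoint (T t) * T t = T t * ContinuousLinearMap.adjoint (T t)
  ext x k
  rw [mul_apply_eq_comp, mul_apply_eq_comp, adjoint_apply, T_apply, T_apply, adjoint_apply]
  ring

theorem strongly_stable (x : H) : Tendsto (fun t : ℝ≥0 => T t x) atTop (𝓝 0) := by
  have hp : (0 : ℝ) < (2 : ℝ≥0∞).toReal := by norm_num
  have h2 : (2 : ℝ≥0∞).toReal = 2 := by norm_num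
  have hsum := (lp.memℓp x).summable hp
  have h1 : Tendsto (fun t : ℝ≥0 => ∑' k : ℕ, ‖(T t x) k‖ ^ (2 : ℝ≥0∞).toReal) atTop (𝓝 0) := by
    have h0 : (0 : ℝ) = ∑' k : ℕ, (0 : ℝ) := by simp
    rw [h0]
    refine tendsto_tsum_of_dominated_convergence hsum (fun k => ?_) ?_
    · have h3 : Tendsto (fun t : ℝ≥0 => ‖mult (t : ℝ) k‖ * ‖x k‖) atTop (𝓝 0) := by
        have h4 := (tendsto_mult k).norm.mul_const ‖x k‖
        rwa [norm_zero, zero_mul] at h4
      have h5 := h3.rpow_const (p := (2 : ℝ≥0∞).toReal) (Or.inr hp.le)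
      rw [Real.zero_rpow hp.ne'] at h5
      refine h5.congr fun t => ?_
      rw [T_apply, norm_mul]
    · refine Eventually.of_forall fun t k => ?_
      rw [Real.norm_of_nonneg (Real.rpow_nonneg (norm_nonneg _) _), T_apply, norm_mul]
      exact Real.rpow_le_rpow (by positivity)
        (mul_le_of_le_one_left (norm_nonneg _) (norm_mult_le_one t.2 k)) hp.le
  have h3 : Tendsto (fun t : ℝ≥0 => ‖T t x‖ ^ (2 : ℝ≥0∞).toReal) atTop (𝓝 0) :=
    h1.congr fun t => (lp.norm_rpow_eq_tsum hp (T t x)).symm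
  have h4 := h3.rpow_const (p := (2 : ℝ≥0∞).toReal⁻¹) (Or.inr (by positivity))
  rw [Real.zero_rpow (inv_pos.2 hp).ne'] at h4
  rw [tendsto_zero_iff_norm_tendsto_zero]
  refine h4.congr fun t => ?_
  exact Real.rpow_rpow_inv (norm_nonneg _) hp.ne'

theorem late (x : H) (y : H →L[ℂ] ℂ) (t₀ : ℝ≥0) :
    ∃ t : ℝ≥0, t₀ ≤ t ∧ ‖y (T t x)‖ < Real.exp (-(Real.sqrt t / 2)) := by
  obtain ⟨c, hc, h⟩ := weak_orbit x y
  obtain ⟨t, ht0, ht1, ht⟩ := exists_small_late c hc t₀
  refine ⟨t.toNNReal, ?_, ?_⟩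
  · exact NNReal.le_toNNReal_of_coe_le ht1
  · rw [h, Real.coe_toNNReal t ht0]
    exact ht

theorem rate_tendsto : Tendsto (fun t : ℝ≥0 => Real.exp (-(Real.sqrt t / 2))) atTop (𝓝 0) := by
  refine Real.tendsto_exp_atBot.comp ?_
  refine tendsto_neg_atTop_atBot.comp ?_
  exact (Real.tendsto_sqrt_atTop.comp (NNReal.tendsto_coe_atTop.2 tendsto_id)).atTop_div_const
    (by norm_num)

theorem rate_antitone : Antitone (fun t : ℝ≥0 => Real.exp (-(Real.sqrt t / 2))) := by
  intro s t hst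
  simp only
  rw [Real.exp_le_exp]
  have : Real.sqrt (s : ℝ) ≤ Real.sqrt (t : ℝ) := Real.sqrt_le_sqrt (by exact_mod_cast hst)
  linarith

end Pool.Agent.Helper50.SLO
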